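import Pool.Agent.Helper65.TU.Stmts

/-! Row RED of project TU. -/

open Set Filter Topology

namespace Pool.Agent.Helper65.TU

universe u v

namespace H47

variable {X : Type u} [NormedAddCommGroup X] [NormedSpace ℝ X]

lemma wc_union {K L : Set X} (hK : WCpt K) (hL : WCpt L) : WCpt (K ∪ L) := by
  unfold WCpt at *
  rw [image_union]
  exact hK.union hL

lemma wc_finite {K : Set X} (hK : K.Finite) : WCpt K := by
  unfold WCpt
  exact (hK.image _).isCompact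

lemma wc_smul (c : ℝ) {K : Set X} (hK : WCpt K) : WCpt ((fun x => c • x) '' K) := by
  unfold WCpt at *
  have h := hK.image (continuous_const_smul c)
  rw [image_image] at h ⊢
  simpa using h

lemma wc_biUnion (M : ℕ → Set X) (hM : ∀ n, WCpt (M n)) (n : ℕ) :
    WCpt (⋃ k ∈ Finset.range n, M k) := by
  unfold WCpt
  have e : (toWeakSpace ℝ X '' (⋃ k ∈ Finset.range n, M k)) =
      ⋃ k ∈ Finset.range n, (toWeakSpace ℝ X '' (M k)) := by
    simp only [image_iUnion]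
  rw [e]
  exact (Finset.range n).isCompact_biUnion (fun k _ => hM k)

lemma wc_bdd {K : Set X} (hK : WCpt K) : ∃ N : ℕ, 1 ≤ N ∧ ∀ x ∈ K, ‖x‖ ≤ N := by
  have h1 : ∃ C' : ℝ, ∀ i : K, ‖NormedSpace.inclusionInDoubleDual ℝ X (i : X)‖ ≤ C' := by
    apply banach_steinhaus
    intro f
    have hc : IsCompact (f '' K) := by
      have h2 : IsCompact ((fun y : WeakSpace ℝ X => f ((toWeakSpace ℝ X).symm y)) ''
          (toWeakSpace ℝ X '' K)) := by
        apply hK.image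
        exact WeakBilin.eval_continuous _ f
      rw [image_image] at h2
      simpa using h2
    obtain ⟨C, hC⟩ := hc.isBounded.exists_norm_le
    exact ⟨C, fun i => by
      have := hC (f i) (mem_image_of_mem f i.2)
      simpa using this⟩
  obtain ⟨C', hC'⟩ := h1
  obtain ⟨N, hN⟩ := exists_nat_ge C'
  refine ⟨N + 1, by omega, fun x hx => ?_⟩
  have h3 := hC' ⟨x, hx⟩
  have h4 : ‖NormedSpace.inclusionInDoubleDual ℝ X x‖ = ‖x‖ :=
    (NormedSpace.inclusionInDoubleDualLi ℝ (E := X)).norm_map x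
  simp only at h3
  rw [h4] at h3
  push_cast
  linarith

end H47

open H47

theorem st_RED (hJ : ST_JAM.{u}) (hM : ST_MAZ.{u}) : ST_RED.{u} := by
  classical
  intro X _ _ _ hR hA
  obtain ⟨θ, x, f, hxf⟩ := hJ X hR
  obtain ⟨δ₀, hδ₀, hAε⟩ := hA
  choose F hF1 hF2 using hAε
  choose N hN1 hN using (fun p : WeaklyCompact X univ => wc_bdd (X := X) (K := p.1) p.2.2)
  -- the map
  have hscale : ∀ p : WeaklyCompact X univ, WCpt ((fun y => ((N p : ℝ))⁻¹ • y) '' p.1) ∧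
      ((fun y => ((N p : ℝ))⁻¹ • y) '' p.1) ⊆ Bl X := by
    intro p
    refine ⟨wc_smul _ p.2.2, ?_⟩
    rintro _ ⟨y, hy, rfl⟩
    have hNp : (0 : ℝ) < N p := by exact_mod_cast hN1 p
    simp only [Bl, mem_ofPred_eq]
    rw [norm_smul, norm_inv, Real.norm_eq_abs, abs_of_pos hNp, inv_mul_le_iff₀ hNp, mul_one]
    exact hN p y hy
  have hex : ∀ (ε : ℝ) (p : WeaklyCompact X univ), ∃ q : WeaklyCompact X (Bl X),
      ∀ hε : 0 < ε / N p, q.1 = F (ε / N p) hε ((fun y => ((N p : ℝ))⁻¹ • y) '' p.1) ∪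
        (x '' {k | k ≤ N p}) := by
    intro ε p
    by_cases hε : 0 < ε / N p
    · have h1 := hF1 (ε / N p) hε _ (hscale p).1 (hscale p).2
      refine ⟨⟨F (ε / N p) hε ((fun y => ((N p : ℝ))⁻¹ • y) '' p.1) ∪ (x '' {k | k ≤ N p}),
        ?_, ?_⟩, fun _ => rfl⟩
      · apply union_subset h1.2
        rintro _ ⟨k, _, rfl⟩
        exact hxf.nx k
      · exact wc_union h1.1 (wc_finite ((Set.finite_le_nat _).image _))
    · exact ⟨⟨∅, empty_subset _, by simp⟩, fun h => absurd h hε⟩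
  choose G hG using hex
  refine ⟨G, fun ε hε => ⟨min (θ / 4) δ₀, lt_min (by linarith [hxf.pos]) hδ₀, fun q₀ => ?_⟩⟩
  obtain ⟨n₀, hn₀⟩ := hM X θ x f hxf q₀.1 q₀.2.2
  -- the sets M_N
  have hMN : ∀ n : ℕ, ∃ M : Set X, WCpt M ∧ (∀ hn : 0 < ε / n, ∀ K, WCpt K → K ⊆ Bl X →
      Near δ₀ (F (ε / n) hn K) q₀.1 → Near (ε / n) K M) := by
    intro n
    by_cases hn : 0 < ε / n
    · obtain ⟨M, hM1, hM2⟩ := hF2 (ε / n) hn q₀.1 q₀.2.2 q₀.2.1
      exact ⟨M, hM1, fun _ => hM2⟩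
    · exact ⟨∅, wc_finite finite_empty, fun h => absurd h hn⟩
  choose M hM1 hM2 using hMN
  refine ⟨⟨⋃ k ∈ Finset.range (n₀ + 1), (fun y => (k : ℝ) • y) '' M k, subset_univ _,
    wc_biUnion _ (fun k => wc_smul _ (hM1 k)) _⟩, fun p hp => ?_⟩
  have hNp : (0 : ℝ) < N p := by exact_mod_cast hN1 p
  have hεN : 0 < ε / N p := div_pos hε hNp
  have hGp := hG ε p hεN
  -- N p ≤ n₀
  have hle : N p ≤ n₀ := by
    apply hn₀
    intro k hk
    obtain ⟨l, hl, hl2⟩ := hp (x k) (by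
      rw [hGp]
      exact Or.inr ⟨k, hk, rfl⟩)
    exact ⟨l, hl, hl2.trans (min_le_left _ _)⟩
  have hnear : Near δ₀ (F (ε / N p) hεN ((fun y => ((N p : ℝ))⁻¹ • y) '' p.1)) q₀.1 := by
    intro y hy
    obtain ⟨l, hl, hl2⟩ := hp y (by
      rw [hGp]
      exact Or.inl hy)
    exact ⟨l, hl, hl2.trans (min_le_right _ _)⟩
  have hK := hM2 (N p) hεN _ (hscale p).1 (hscale p).2 hnear
  intro y hy
  obtain ⟨z, hz, hz2⟩ := hK (((N p : ℝ))⁻¹ • y) ⟨y, hy, rfl⟩
  refine ⟨(N p : ℝ) • z, ?_, ?_⟩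
  · simp only [mem_iUnion]
    exact ⟨N p, Finset.mem_range.mpr (by omega), ⟨z, hz, rfl⟩⟩
  · have e : y - (N p : ℝ) • z = (N p : ℝ) • (((N p : ℝ))⁻¹ • y - z) := by
      rw [smul_sub, smul_smul, mul_inv_cancel₀ hNp.ne', one_smul]
    rw [e, norm_smul, Real.norm_eq_abs, abs_of_pos hNp]
    calc (N p : ℝ) * ‖((N p : ℝ))⁻¹ • y - z‖ ≤ N p * (ε / N p) :=
          mul_le_mul_of_nonneg_left hz2 hNp.le
      _ = ε := by field_simp

end Pool.Agent.Helper65.TU
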